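import Pool.Agent.U192.PX.Trans

/-!
# Abundance for pairs with an isotrivial correspondence

Let `X` be a projective variety over `ℂ` of dimension `d`, `(W, Δ)` a pair, and let `V₁ ⊂ W × X` be a
correspondence of finite degree over `W`, dominant over `X`, which is birationally isotrivial over `X`:
for some dominant rational map `X' ⇢ X` with `dim X' = dim X` the fibre product `V₁ ×_X X'` (or one of
its components) is birational to a product `V = X' × Y`, `dim Y = r + 1 ≥ 1`. In other words, there is a
dominant rational map `f : V = X' × Y ⇢ W` of finite degree such that `V ⇢ W × X'` is injective on an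
open subset, and `V₁` is the image of `V` in `W × X`. The map `f` need not be compatible with the
projections, and it need not be a Galois cover. There is no map from `W` to `X` in general: the variety
`W` is covered by a family of varieties birational to `Y` which is parametrised by `X'`, and finitely
many members of the family pass through a general point.

Let `T` be a finite set of rational functions on `X` such that `1` and the functions in `T` generate the
function field of `V₁` as a vector space over `ℂ(W)` (they separate the points of `X` which correspond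
to a general point of `W`), and let `H` be the divisor of the poles of the functions in `T`.

Let `(Y, Δ_Y)` be a pair with the multiplicities `0 ≤ δ_Y ≤ 1`, and let `Δ` be an effective
`ℝ`-divisor on `W` (given by its multiplicities `δ P ≥ 0` at all prime divisors `P` over `W`, for
instance `δ P = max (0, - a(P, W, Δ))`) such that over the generic point of `X'` the product
`X' × Δ_Y` is at most `f^* Δ` and at least the positive part `Δ_V` of the divisor `Δ' = f^* Δ - R` on
`V`, where `K_V + Δ' = f^* (K_W + Δ)` and `R` is the ramification divisor. If `Δ_V = X' × Δ_Y` over the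
generic point of `X'` then both conditions are satisfied, because `Δ_V ≤ f^* Δ`; and both are void if
`Δ = 0` and `Δ_Y = 0`. Nothing is assumed about `Δ` at the prime divisors which are not mapped onto `X`.

**Theorem.** Suppose that `K_X - 2 H` is big. Then for all `b ≥ 0`

* `κ(W, K_W + Δ) ≥ d + b` if and only if `κ(Y, K_Y + Δ_Y) ≥ b`;
* `ν(W, K_W + Δ) ≤ d + b` if and only if `ν(Y, K_Y + Δ_Y) ≤ b`.

So `κ = ν` for the pair `(W, Δ)` if and only if `κ = ν` for the pair `(Y, Δ_Y)` (if
`κ(Y, K_Y + Δ_Y) ≥ 0`), and a klt pair `(W, Δ)` of this kind with `K_W + Δ` nef satisfies the abundance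
conjecture if `κ = ν` for `(Y, Δ_Y)` (Kawamata: nef and `κ = ν` implies semiample), for instance if
`dim Y ≤ 3`.

For instance let `X ⊂ ℙ^{d + 1}` be a smooth hypersurface of degree `c`, and let `V₁` have degree `δ`
over `W`. Polynomials of degree `δ - 1` in a general linear form separate the points of `X` which
correspond to a general point of `W`, so `c > d + 2 δ` is sufficient. If these points are linearly
independent in `ℙ^{d + 1}` then the coordinates separate them, and `c > d + 4` is sufficient.
If `T = ∅` then `X` is dominated by `W`, and `W → X` is an isotrivial fibre space.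
(These remarks are not part of the Lean proof.)

The case `X' = X`, with the monomials in the coordinates of maps to projective spaces as functions in
`T`, is `AbundanceTransfer` (MP_97d78d_ag, by the same agent). New are the base change `X' ⇢ X` and the
arbitrary set `T`: only the positivity of `X` and the degree of `V₁` over `W` matter, not the degree
of `V` over `W`.

Proof. If `α` is a section of `m (K_X - 2 H) + A` and `β` a section of `m (K_Y + Δ_Y) + B`, then the
pull-back of `α` to `X'` has zeros along the ramification of `X' ⇢ X`, and the form `α ⊠ β` on `V` is, up to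
poles which do not depend on `m`, a section of the pull-back of `m (K_{V₁} - 2 H)` along the divisors
which are not mapped onto `X`. Along the divisors which are mapped onto `X` the map `V ⇢ V₁` is not
ramified, because the function field of `V` is generated by the ones of `V₁` and `X'`. The norm of
`α ⊠ β` from the function field of `V` to the one of `W`, multiplied by a power of the discriminant of
a basis in `{1} ∪ T`, is a section of `m (deg f) (K_W + Δ) + C`, where `C` does not depend on `m`. So
there are many sections on `W`. Conversely, the pull-backs to `V` of the sections of `m (K_W + Δ) + C` are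
restricted to the generic fibre of `V → X'`, and their coefficients with respect to a basis of the
function field of `X'` over `ℂ` are sections of `m (K_Y + Δ_Y) + B`.
-/

set_option autoImplicit false
set_option linter.overlappingInstances false
set_option maxHeartbeats 4000000

open FF Module Pool.Agent.W602.GT
open Pool.Agent.Y174 (PairKod PairNum)

namespace Pool.Agent.Results.MP_9a2ae6_ag.IsotrivialCorrespondences

/-- The order of the poles along `v` of the functions in the finite set `T`: the multiplicity at `v`
of `H`, the smallest effective divisor with `H + (t) ≥ 0` for all `t ∈ T`, `t ≠ 0`. -/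
noncomputable def poleOrder {E : Type} [Field E] [Algebra ℂ E] (T : Finset E) (v : Place ℂ E) : ℕ :=
  T.sup fun z => (-v.ord z).toNat

/-- `θ` is a section of `m (K_X - 2 H)`, where `E` is the function field of `X`, of dimension `d`, and
`H` is the divisor of the poles of the functions in `T`: an `m`-canonical form of order at least
`2 m H_v` along all prime divisors `v` over `X`. -/
def IsSection {E : Type} [Field E] [Algebra ℂ E] (d m : ℕ) (T : Finset E)
    (θ : (Fin d → Derivation ℂ E E) → E) : Prop :=
  IsPluri m θ ∧ ∀ v : Place ℂ E, Divisorial d v → ∀ G : Fin d → Derivation ℂ E E,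
    (∀ i, DerReg v (G i)) → θ G = 0 ∨ 2 * (m : ℤ) * poleOrder T v ≤ v.ord (θ G)

/-- `K_X - 2 H` is big, `dim X = d`: for some `m ≥ 1` there are `d + 1` sections of `m (K_X - 2 H)` with
algebraically independent ratios. -/
def IsBig {E : Type} [Field E] [Algebra ℂ E] (d : ℕ) (T : Finset E) : Prop :=
  ∃ m : ℕ, 1 ≤ m ∧ ∃ θ : Fin (d + 1) → (Fin d → Derivation ℂ E E) → E,
    (∀ j, IsSection d m T (θ j)) ∧ ∃ G : Fin d → Derivation ℂ E E, θ 0 G ≠ 0 ∧
      AlgebraicIndependent ℂ fun j : Fin d => θ j.succ G / θ 0 G

/-- `1` and the functions in `T` generate the field `K(E)` as a vector space over `K`. Here `L` is the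
function field of `V`, `E` the one of `X`, `K` the one of `W`, and so `K(E)` the one of `V₁`. -/
def Separates {L : Type} [Field L] [Algebra ℂ L] (K : Type) [Field K] [Algebra K L]
    (E : IntermediateField ℂ L) (T : Finset E) : Prop :=
  ∀ z ∈ IntermediateField.adjoin K (E : Set L),
    z ∈ Submodule.span K (insert 1 ((fun t : E => (t : L)) '' (T : Set E)))

/-- `Q` lies over `P` with the ramification index `e`. -/
def LiesOver {K L : Type} [Field K] [Field L] [Algebra ℂ K] [Algebra ℂ L] [Algebra K L]
    (Q : Place ℂ L) (P : Place ℂ K) (e : ℕ) : Prop :=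
  0 < e ∧ ∀ f : K, Q.ord (algebraMap K L f) = e * P.ord f

/-- `Δ_V` is the positive part of the divisor `Δ'` with `K_V + Δ' = f^* (K_W + Δ)`. The multiplicity
of `Δ` at a prime divisor `P` over `W` is `δ P`. -/
def IsPullBack {K L : Type} [Field K] [Field L] [Algebra ℂ K] [Algebra ℂ L] [Algebra K L]
    (δ : Place ℂ K → ℝ) (δV : Place ℂ L → ℝ) : Prop :=
  ∀ (P : Place ℂ K) (Q : Place ℂ L) (e : ℕ), LiesOver Q P e → δV Q = max 0 (1 - e * (1 - δ P))

/-- The divisor `Δ_V` on `V = X' × Y`, of dimension `n`, is at most the product `X' × Δ_Y` over the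
generic point of `X'`. `U` and `F` are the function fields of `X'` and `Y`. Let `Q` be a prime divisor
over `V` which is mapped onto `X'`. If it is mapped onto `Y`, too, then the multiplicity of `Δ_V` is at
most `0`, and if it lies over the prime divisor `P` over `Y` with the ramification index `e` then the
multiplicity is at most the one of the positive part of the pull-back, `max 0 (1 - e (1 - δ_Y P))`. -/
def IsProductBoundary {L : Type} [Field L] [Algebra ℂ L] (U F : IntermediateField ℂ L) (n : ℕ)
    (δV : Place ℂ L → ℝ) (δY : Place ℂ F → ℝ) : Prop :=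
  ∀ Q : Place ℂ L, Divisorial n Q → (∀ z ∈ U, Q.ord z = 0) →
    ((∀ z ∈ F, Q.ord z = 0) → δV Q ≤ 0) ∧
    ∀ (P : Place ℂ F) (e : ℕ), LiesOver Q P e → δV Q ≤ max 0 (1 - e * (1 - δY P))

/-- Over the generic point of `X'`, the divisor `f^* Δ` on `V = X' × Y`, of dimension `n`, is at least
the product `X' × Δ_Y`: if the prime divisor `Q` over `V` is mapped onto `X'` and lies over the prime
divisors `P` over `W` and `P'` over `Y`, with the ramification indices `e` and `e'`, then the
multiplicity `1 - e' (1 - δ_Y P')` of the product boundary is at most the multiplicity `e δ P` of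
`f^* Δ`. -/
def BoundsProduct {K L : Type} [Field K] [Field L] [Algebra ℂ K] [Algebra ℂ L] [Algebra K L]
    (U F : IntermediateField ℂ L) (n : ℕ) (δ : Place ℂ K → ℝ) (δY : Place ℂ F → ℝ) : Prop :=
  ∀ (P : Place ℂ K) (Q : Place ℂ L) (P' : Place ℂ F) (e e' : ℕ), LiesOver Q P e →
    LiesOver Q P' e' → Divisorial n Q → (∀ z ∈ U, Q.ord z = 0) → 1 - e' * (1 - δY P') ≤ e * δ P

/-- The multiplicities of `Δ` at all prime divisors over the variety of dimension `n` are bounded by
those of a divisor, the divisor of the poles of finitely many functions. -/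
def IsBounded {K : Type} [Field K] [Algebra ℂ K] (n : ℕ) (δ : Place ℂ K → ℝ) : Prop :=
  ∃ S : Finset K, ∀ P : Place ℂ K, Divisorial n P → ∃ s ∈ S, s ≠ 0 ∧ δ P ≤ -P.ord s

/-- **Abundance for isotrivial correspondences.** Let `L` be the function field of the product `V` of
the varieties `X'` and `Y` with the function fields `U` and `F`, of dimensions `d` and `r + 1`: it is
generated by `U` and `F` and has the transcendence degree `d + (r + 1)`. Let `E ⊆ U`, of
transcendence degree `d`, be the function field of `X`, let `K ⊆ L` be the function field of a variety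
`W`, the extension being finite, such that `L` is generated by `K` and `U` (i.e. the map `V ⇢ W × X'` is
generically injective), and let `T ⊆ E` be a finite set which separates the points of `X` which
correspond to a general point of `W`. Let `Δ_Y` be a divisor with multiplicities `0 ≤ δ_Y P ≤ 1` at the
prime divisors over `Y`, and `Δ` an effective divisor on `W`, whose pull-back `f^* Δ` is at least, and
for which the positive part `Δ_V` of `f^* Δ - R` is at most, the product `X' × Δ_Y` over the generic
point of `X'`. If `K_X - 2 H` is big, `H` the divisor of the poles of `T`, then, for all `b ≥ 0`,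
`κ(K_W + Δ) ≥ d + b` if and only if `κ(K_Y + Δ_Y) ≥ b`, and `ν(K_W + Δ) ≤ d + b` if and only if
`ν(K_Y + Δ_Y) ≤ b`. -/
theorem result {L : Type} [Field L] [Algebra ℂ L] [Algebra.EssFiniteType ℂ L]
    (E U F : IntermediateField ℂ L) (hEU : E ≤ U) (hUF : U ⊔ F = ⊤) {d r : ℕ}
    (hE : Algebra.trdeg ℂ E = d) (hU : Algebra.trdeg ℂ U = d)
    (hF : Algebra.trdeg ℂ F = (r + 1 : ℕ)) (hL : Algebra.trdeg ℂ L = (d + (r + 1) : ℕ))
    (K : Type) [Field K] [Algebra ℂ K] [Algebra K L] [IsScalarTower ℂ K L] [FiniteDimensional K L]
    (hinj : IntermediateField.adjoin K (U : Set L) = ⊤) (T : Finset E) (hT : Separates K E T)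
    (δY : Place ℂ F → ℝ) (hY0 : ∀ P, 0 ≤ δY P) (hY1 : ∀ P, Divisorial (r + 1) P → δY P ≤ 1)
    (δ : Place ℂ K → ℝ) (hδ0 : ∀ P, 0 ≤ δ P) (hδ : IsBounded (d + (r + 1)) δ)
    (δV : Place ℂ L → ℝ) (hδV : IsPullBack δ δV)
    (hle : IsProductBoundary U F (d + (r + 1)) δV δY)
    (hge : BoundsProduct U F (d + (r + 1)) δ δY) (hbig : IsBig d T) (b : ℕ) :
    (PairKod ℂ K (d + (r + 1)) δ (d + b) ↔ PairKod ℂ F (r + 1) δY b) ∧
    (PairNum ℂ K (d + (r + 1)) δ (d + b) ↔ PairNum ℂ F (r + 1) δY b) := by
  classical
  have hessE : Algebra.EssFiniteType ℂ E := Pool.Agent.N999.SX.ess_any E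
  have hessU : Algebra.EssFiniteType ℂ U := Pool.Agent.N999.SX.ess_any U
  have hessF : Algebra.EssFiniteType ℂ F := Pool.Agent.N999.SX.ess_any F
  obtain ⟨m, hm, θ, hθ, D, hD, hind⟩ := hbig
  have hset : ∀ z ∈ IntermediateField.adjoin K (E : Set L),
      z ∈ Submodule.span K {z : L | ∃ t : E, (t = 1 ∨ t ∈ T) ∧ (t : L) = z} := by
    intro z hz
    refine Submodule.span_mono ?_ (hT z hz)
    rintro w (rfl | ⟨t, ht, rfl⟩)
    · exact ⟨1, Or.inl rfl, rfl⟩
    · exact ⟨t, Or.inr ht, rfl⟩
  refine U192.PX.abu_transfer (K := K) (E := E) (U := U) (F := F) hm hUF hEU hE hU hF hL hinj hset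
    hδ0 hδ hδV hY0 hY1 hle hge (α := θ) (fun j => ⟨(hθ j).1, fun P hP G hG => ?_⟩) hD hind b
  rcases (hθ j).2 P hP G hG with h | h
  · exact Or.inl h
  · refine Or.inr ⟨1, Finset.mem_singleton_self _, one_ne_zero, ?_⟩
    rw [P.ord_one, add_zero]
    exact h

end Pool.Agent.Results.MP_9a2ae6_ag.IsotrivialCorrespondences
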