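import Pool.Agent.U189.MG.Ext
import Pool.Agent.U189.MG.Frm

/-!
# Nef real classes are semiample on the covers branched along normal crossing hypersurfaces

**The varieties.** Let `F k`, `k = 0, ..., n`, be forms of degrees `d k` in `n + 1` variables whose
zero sets in the projective `n`-space are smooth hypersurfaces with normal crossings, `Y` a normal
abelian cover of the projective space which is branched only along these hypersurfaces, and `X` the
toroidal modification of `Y` which is given by `fan` (see `Pool/Agent/U189/ND/Defs.lean`, where the
definitions `NormalCrossings`, `Admissible`, `InCone`, `IsFan`, `affine`, `minimalOrder`,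
`multiplicities` and `coefficient` are explained). `D 1, ..., D p` are toroidal `ℚ`-Cartier divisors on
`X`, for instance generators of all of them; the coefficients of their pullbacks at the prime divisors
`P` over `X` are the `δ i P`. If `n ≥ 3`, if every generator of a ray has at most `n - 1` positive
coordinates and if the `D i` generate the toroidal divisors of a `ℚ`-factorial `X`, then all divisors on
`X` are rational combinations of the `D i` up to `ℚ`-linear equivalence (Lefschetz; this remark is not
used and not proved here).
`X` can be any toroidal modification which is a projective (or only a complete) variety; no combination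
of the `D i` is assumed to be ample, and the classes of the `D i` need not span `N¹(X)`.

**Classes which are free along a set of prime divisors.** Let `PP` be any set of prime divisors over `X`
(divisorial valuations of `K`; they are exceptional over `X` or not). An integral combination is free
along `PP` if it has a nonzero section and for every `P` in `PP` a section which does not vanish at `P`
(`IsFreeAlong`). A real combination `w` is a limit of such classes (`IsFreeAlongUpTo`) if there is a
divisor `A` on some model of `X`, generated by finitely many functions, such that for all `M ≥ 1`
multiples of `w + A / M` have, up to a change of the coefficients by at most `1 / M`, for every `P` in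
`PP` a section which does not vanish at `P`. Here `A` need not be a combination of the `D i`. Special
cases (for a projective `X`; take `A` ample such that also the `A ± D i` are ample):
* `PP` all prime divisors over `X`: every nef class has the property (`w + A / M` is ample), and the free
integral classes are those without base points;
* `PP` all prime divisors on `X`: every class in the closure of the cone of movable divisor classes in
`N¹(X)` has the property, and the free integral classes are those without fixed divisor;
* `PP` all prime divisors over `X` with a centre of codimension at most `q` on `X`: closures of the cones
of divisors whose base loci have codimension more than `q`;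
* `PP` empty: the pseudo-effective classes.

**The theorem.** There are finitely many rational polyhedral cones, such that for EVERY set `PP` the
real combinations `w` which are limits of classes free along `PP` form one of these cones; and it is
spanned by finitely many integral combinations which are free along `PP`.

**Abundance.** Let `(X, B)` be a log canonical (for instance klt) pair with real coefficients such that
`K_X + B` is a real combination `w` of the `D i`; for instance `B` is a combination with real coefficients in
`[0, 1]` of the prime divisors of the boundary of `X` (`K_X` plus the reduced boundary of `X` is
`∑ k, d k - (n + 1)` times the hyperplane class) and `K_X + B` is `ℝ`-Cartier. If `K_X + B` is nef then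
by the theorem for all prime divisors over `X` it is a combination with coefficients `≥ 0` of integral
divisors without base points: it is semiample as an `ℝ`-divisor, as Question Q1 asks (for projective `X`).
The dimension, the degrees `d k` and the Kodaira dimension are arbitrary.

**Relation to the other results.** `MP_9a2ae6_ag.RealToroidalBoundaries` is about `K_X + Δ` with
toroidal boundary on covers of products of projective spaces which are branched along one smooth
hypersurface of each factor, with explicit inequalities. Here `Y` is branched along `n + 1`
hypersurfaces with normal crossings of one projective space. In `MP_ad47bb_ag.NormalCrossingModels` (same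
`X`) the nef combinations are the limits of semiample combinations of the `D i`; this is the geometric
notion only if some combination of the `D i` is ample. Here `A` is arbitrary, and the sets `PP` are new.

**Proof.** The Cox ring of the `D i` together with the hyperplane class is finitely generated
(`Pool/Agent/U189/NF`), and finite sets of functions are bounded by a multiple of the hyperplane class
(`Pool/Agent/U189/MG/Abs.lean`). The generators which vanish at `P` can occur in the limit only with the
coefficient zero (`Pool/Agent/U189/MG/Fre.lean`, `Frm.lean`).
-/

set_option autoImplicit false

open FF MvPolynomial Pool.Agent.W602.GT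

namespace Pool.Agent.Results.MP_9a2ae6_ag.NormalCrossingRealNef

open Pool.Agent.U660.MD (coneOf)
open Pool.Agent.U189.ND Pool.Agent.U189.MG.G

/-- **Cones of classes which are free along sets of prime divisors.** Let `K` be the function field of an abelian
cover `Y` of the projective `n`-space which is branched along `n + 1` hypersurfaces `F k = 0` with normal
crossings, `X` the toroidal modification of `Y` which is given by `fan`, and `D i`, `i < p`, toroidal
`ℚ`-Cartier divisors on `X` with the degrees `β i` and the coefficients `c i`. There are finitely
many finite families `h l` of integral combinations such that for every set `PP` of prime divisors over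
`X` there is `l` such that the `h l b` are free along `PP`, and span the cone of all real combinations
which are limits of classes free along `PP`. -/
theorem result (n R p : ℕ) (hn : 1 ≤ n) (d : Fin (n + 1) → ℕ) (hd : ∀ k, 1 ≤ d k)
    (F : Fin (n + 1) → MvPolynomial (Fin (n + 1)) ℂ) (hF : ∀ k, (F k).IsHomogeneous (d k))
    (hs : NormalCrossings F) (m : Fin R → ℕ) (hm : ∀ j, 1 ≤ m j) (a : Fin R → Fin (n + 1) → ℕ)
    (hdiv : ∀ j, m j ∣ ∑ k, a j k * d k)
    (K : Type) [Field K] [Algebra ℂ K] (x : Fin (n + 1) → K) (hx0 : x 0 ≠ 0)
    (hbas : IsTranscendenceBasis ℂ (affine x)) (z : Fin R → K)
    (hz : ∀ j, z j ^ m j = ∏ k, (aeval x (F k) / x 0 ^ d k) ^ a j k)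
    (hgen : IntermediateField.adjoin ℂ (Set.range (affine x) ∪ Set.range z) = ⊤)
    (fan : Finset (Finset (Fin (n + 1) → ℕ))) (hfan : IsFan m a fan)
    (c : Fin p → (Fin (n + 1) → ℕ) → ℚ) (hc0 : ∀ i, c i 0 = 0) (β : Fin p → ℤ)
    (u : Finset (Fin (n + 1) → ℕ) → Fin p → Fin (n + 1) → ℚ)
    (hlin : ∀ σ ∈ fan, ∀ i v, Admissible m a v → InCone σ v → - c i v = ∑ k, u σ i k * v k)
    (δ : Fin p → Place ℂ K → ℚ) (hδ : ∀ i P, δ i P = coefficient F d x (c i) (β i) P) :
    ∃ (L : ℕ) (B : Fin L → ℕ) (h : ∀ l, Fin (B l) → Fin p → ℤ), ∀ PP : Set (Place ℂ K), ∃ l,
      (∀ b, IsFreeAlong n δ PP (h l b)) ∧ {w | IsFreeAlongUpTo n δ PP w} = coneOf (h l) :=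
  free_cones (ω := minimalOrder x) (fun S => Pool.Agent.U189.MG.absorb hx0 hbas S)
    (Pool.Agent.U189.MG.cox_ext n R p hn d hd F hF hs m hm a hdiv K x hx0 hbas z hz hgen fan hfan c
      hc0 β u hlin δ hδ)

end Pool.Agent.Results.MP_9a2ae6_ag.NormalCrossingRealNef
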