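import Pool.Agent.U188.RealPair

/-!
# Abundance for toroidal pairs with real boundaries on covers of products of projective spaces

**The varieties.** Let `F i` be a form of degree `d i` in `n i + 1` variables whose zero set in the
projective `n i`-space is a smooth hypersurface, and let `H i` be the cyclic hypersurface
`w ^ (d i) = F i` in the projective `(n i + 1)`-space. Let `Y` be a quotient
`(H 1 × ... × H r) / G`, where `G` is any group of diagonal automorphisms
`w i ↦ ζ i * w i`, `ζ i ^ (d i) = 1`. Equivalently, the function field `K` of `Y` is generated by the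
affine coordinates `x i j / x i 0` of the product of the projective `n i`-spaces and by roots `z j`,
`z j ^ (m j) = ∏ i, (F i (x i) / x i 0 ^ (d i)) ^ (a j i)`, where `m j` divides `a j i * d i`. There is
no condition on the dimensions and the degrees. The toroidal modifications `X` of `Y` are given by the
subdivisions of the positive orthant into rational polyhedral cones (`IsFan`: the maximal cones,
generated by vectors which are `Admissible`, the nonzero lattice points of the orthant).

**The pairs.** `(X, Δ i)`, `i < p`, are toroidal pairs with `ℚ`-divisors `Δ i` for which `K_X + Δ i` is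
`ℚ`-Cartier: the log discrepancy of `(X, Δ i)` at the toroidal divisor with the multiplicities `v` is
`1 - c i v`, a linear function `∑ k, u σ i k * v k` on every cone `σ`, and `c i s` is the coefficient
of `Δ i` at the prime divisor of `X` which belongs to a primitive generator `s` of a ray. Nothing is
assumed about these coefficients. The real divisor is `Δ = ∑ i, w i * Δ i` with real numbers `w i` of
any sign and of sum `1`, so that `K_X + Δ = ∑ i, w i * (K_X + Δ i)`. (As the functions which are linear
on the cones are the real combinations of the rational ones, every toroidal `ℝ`-divisor `Δ` with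
`K_X + Δ` `ℝ`-Cartier is such a combination for suitable `Δ i`, which include the reduced boundary,
with log discrepancies `0`. This remark is not used.) The coefficient of the pullback of `K_X + Δ i`
at a prime divisor `P` over `X` is `canonicalCoefficient F d x (c i) P` (`K_X + Δ i` is represented by
the divisor of the form `∏ t, x t 0 ^ (n t + 1) * dx` plus `Δ i`). The pair `(X, Δ)` is klt if
`∑ i, w i * c i s < 1` for the generators `s` of all cones (`IsKlt`), and log canonical if the numbers
are at most `1` (`IsLc`); the boundary `Δ` is effective if they are nonnegative (`IsEffective`).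

**The theorem.** The following are equivalent:
1. `K_X + Δ` is nef;
2. an explicit finite system of linear inequalities for the `w i`, with rational coefficients: on every
   maximal cone `σ`, where the log discrepancy of `(X, Δ)` is `∑ k, U k * v k`, we have
   `d t * U t ≤ d t - n t - 1` for all `t`, and the log discrepancies at the generators `s` of all cones
   are at most `∑ k, U k * s k`;
3. for every `ε > 0` the divisor `Δ` is a convex combination `∑ j, l j * Δ' j` (`l j > 0`, of sum `1`)
   of `ℚ`-divisors `Δ' j = ∑ i, q j i * Δ i` with rational `q j i` of sum `1` and `|q j i - w i| < ε`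
   such that `K_X + Δ' j` is semiample, and `(X, Δ' j)` is klt, log canonical, with effective boundary
   if `(X, Δ)` has this property;
4. `K_X + Δ = ∑ j, l j * (K_X + Δ' j)` with `l j > 0` and `ℚ`-divisors `Δ' j` such that
   `|ρ (K_X + Δ' j)|` has no base points for some `ρ ≥ 1`; in particular `K_X + Δ` is semiample in the
   sense of the problem.

So for the toroidal klt pairs `(X, Δ)` with an effective `ℝ`-divisor `Δ` the answer to the problem is
positive, in every dimension, with a decomposition into rational klt pairs near `(X, Δ)`. `K_X + Δ` can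
have any numerical dimension between `0` and `dim X`.

`Nef` for the real combination `∑ i, w i * D i` of the divisors `D i = K_X + Δ i`: if it is nef, choose
an ample divisor `A` such that `A + ∑ i, ε i * D i` is ample for `|ε i| ≤ 1`; then for `M ≥ 1` and a
suitable `j` the divisor `∑ i, μ i * D i + j A` has no base points for integers `μ i` with
`|μ i - j M w i| ≤ j`. Conversely, if `A` is a divisor with this property, then
`∑ i, (μ i / j) * D i + A` is nef, and its difference from `M D + A` is bounded, so that `D` is nef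
(divide by `M`). Here `A` is the divisor which is generated by a finite set `S` of rational functions.

**Proof.** The nef cone of finitely many toroidal divisors is a library theorem
(`Pool.Agent.Q57.FT.main_nefcone`); new are the log canonical divisors of real pairs and the
decomposition (`Pool/Agent/U188/RatPoly.lean`, `IndexFree.lean`, `RealPair.lean`): a real point of a
rational polyhedron is a convex combination of near rational points which satisfy the same
inequalities.
-/

set_option autoImplicit false

open FF MvPolynomial Pool.Agent.W602.GT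

namespace Pool.Agent.Results.MP_9a2ae6_ag.RealToroidalBoundaries

/-- The form `F` has no singular zeros: its partial derivatives have no common zero but `0`. -/
def Smooth {n : ℕ} (F : MvPolynomial (Fin (n + 1)) ℂ) : Prop :=
  ∀ x : Fin (n + 1) → ℂ, x ≠ 0 → ∃ l, eval x (pderiv l F) ≠ 0

section fans

variable {r R p : ℕ}

/-- The multiplicities which satisfy the divisibility conditions. -/
def Admissible (m : Fin R → ℕ) (a : Fin R → Fin r → ℕ) (v : Fin r → ℕ) : Prop :=
  v ≠ 0 ∧ ∀ j, m j ∣ ∑ i, a j i * v i

/-- The vector `v` is in the cone which is generated by the vectors in `σ`. -/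
def InCone (σ : Finset (Fin r → ℕ)) (v : Fin r → ℕ) : Prop :=
  ∃ w : (Fin r → ℕ) → ℚ, (∀ s, 0 ≤ w s) ∧ ∀ k, (v k : ℚ) = ∑ s ∈ σ, w s * s k

/-- `fan` is a finite set of cones, each generated by a finite set of admissible vectors which span
the whole space, which cover all admissible vectors. -/
structure IsFan (m : Fin R → ℕ) (a : Fin R → Fin r → ℕ) (fan : Finset (Finset (Fin r → ℕ))) :
    Prop where
  adm : ∀ σ ∈ fan, ∀ s ∈ σ, Admissible m a s
  full : ∀ σ ∈ fan, ∀ f : Fin r → ℚ, ∃ q : (Fin r → ℕ) → ℚ, ∀ k, f k = ∑ s ∈ σ, q s * s k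
  cover : ∀ v, Admissible m a v → ∃ σ ∈ fan, InCone σ v

variable (fan : Finset (Finset (Fin r → ℕ))) (c : Fin p → (Fin r → ℕ) → ℚ) (w : Fin p → ℝ)

/-- The divisor `Δ = ∑ i, w i * Δ i` is effective: its coefficients `∑ i, w i * c i s` at the
generators `s` of the cones are nonnegative. -/
def IsEffective : Prop :=
  ∀ τ ∈ fan, ∀ s ∈ τ, 0 ≤ ∑ i, w i * c i s

/-- The pair `(X, Δ)` is log canonical: the coefficients are at most `1`. -/
def IsLc : Prop :=
  ∀ τ ∈ fan, ∀ s ∈ τ, ∑ i, w i * c i s ≤ 1

/-- The pair `(X, Δ)` is klt: the coefficients are smaller than `1`. -/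
def IsKlt : Prop :=
  ∀ τ ∈ fan, ∀ s ∈ τ, ∑ i, w i * c i s < 1

/-- The inequalities: on every maximal cone `σ` the log discrepancy of `(X, Δ)` is the linear function
with the coefficients `U k = ∑ i, w i * u σ i k`; we have `d t * U t ≤ d t - n t - 1`, and the log
discrepancies at the generators of all cones are at most this linear function. -/
def Inequalities (n d : Fin r → ℕ) (u : Finset (Fin r → ℕ) → Fin p → Fin r → ℚ) : Prop :=
  ∀ σ ∈ fan, (∀ t, (d t : ℝ) * ∑ i, w i * u σ i t ≤ (d t : ℝ) - n t - 1) ∧
    ∀ τ ∈ fan, ∀ s ∈ τ, 1 - ∑ i, w i * c i s ≤ ∑ k, (∑ i, w i * u σ i k) * (s k : ℝ)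

end fans

section places

variable {r : ℕ} {n : Fin r → ℕ} {K : Type} [Field K] [Algebra ℂ K]

/-- The affine coordinates of the product of the projective spaces. -/
noncomputable def affine (x : ∀ i, Fin (n i + 1) → K) (b : (i : Fin r) × Fin (n i)) : K :=
  x b.1 b.2.succ / x b.1 0

/-- The minimal order at `P` of the homogeneous coordinates `y`. -/
noncomputable def minimalOrder {n : ℕ} (y : Fin (n + 1) → K) (P : Place ℂ K) : ℤ :=
  Finset.univ.inf' Finset.univ_nonempty fun j => P.ord (y j)

/-- The multiplicities of the hypersurfaces `F i = 0` along the prime divisor `P`; the `x i j` are the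
homogeneous coordinates of the `i`-th factor, which are divided by one of minimal order at `P`. -/
noncomputable def multiplicities (F : ∀ i, MvPolynomial (Fin (n i + 1)) ℂ) (d : Fin r → ℕ)
    (x : ∀ i, Fin (n i + 1) → K) (P : Place ℂ K) (i : Fin r) : ℕ :=
  (P.ord (aeval (x i) (F i)) - d i * minimalOrder (x i) P).toNat

/-- The coefficient at the prime divisor `P` of the pullback of `K_X + Δ`, where `1 - c v` are the log
discrepancies of the toroidal pair: it is `∑ k, v k - (1 - c v)` (zero for `v = 0`), `v` the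
multiplicities, minus `n t + 1` times the coefficient `- minimalOrder (x t) P` of the hyperplane class
of the `t`-th factor, for all `t`. -/
noncomputable def canonicalCoefficient (F : ∀ i, MvPolynomial (Fin (n i + 1)) ℂ) (d : Fin r → ℕ)
    (x : ∀ i, Fin (n i + 1) → K) (c : (Fin r → ℕ) → ℚ) (P : Place ℂ K) : ℚ :=
  (if multiplicities F d x P = 0 then 0
    else ∑ k, (multiplicities F d x P k : ℚ) - (1 - c (multiplicities F d x P))) +
    ∑ t, ((n t : ℚ) + 1) * minimalOrder (x t) P

end places

section divisors

variable {K : Type} [Field K] [Algebra ℂ K] {p : ℕ} (N : ℕ)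

/-- The divisor `D` with the coefficients `δ P` is semiample: for some `ρ ≥ 1` the linear system
`|ρ D|` has no base points, that is, for every prime divisor `P` over `X` (every divisorial place `P` of
`K`) there is a section `f ≠ 0` of `ρ D` (the order of `f` at every `Q` is at least `- ρ * δ Q`) which
does not vanish at `P` (its order at `P` is at most `- ρ * δ P`). -/
def IsSemiample (δ : Place ℂ K → ℚ) : Prop :=
  ∃ ρ : ℕ, 1 ≤ ρ ∧ ∀ P : Place ℂ K, Divisorial N P → ∃ f : K, f ≠ 0 ∧
    (∀ Q : Place ℂ K, Divisorial N Q → - (ρ * δ Q) ≤ Q.ord f) ∧ (P.ord f : ℚ) ≤ - (ρ * δ P)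

/-- The real combination `∑ i, w i * D i`, `D i` with the coefficients `δ i P`, is nef: there is a
divisor `A`, generated by a finite set `S` of functions (its coefficient at `P` is the maximum of the
numbers `- P.ord s`, `s ∈ S`, `s ≠ 0`), such that for every `M ≥ 1` there is `j ≥ 1` such that for
every prime divisor `P` over `X` there are integers `μ i` with `|μ i - j M w i| ≤ j` and a section of
`∑ i, μ i * D i + j * A` which does not vanish at `P`. -/
def Nef (δ : Fin p → Place ℂ K → ℚ) (w : Fin p → ℝ) : Prop :=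
  ∃ S : Finset K, (∃ s ∈ S, s ≠ 0) ∧ ∀ M : ℕ, 1 ≤ M → ∃ j : ℕ, 1 ≤ j ∧
    ∀ P : Place ℂ K, Divisorial N P → ∃ μ : Fin p → ℤ, (∀ i, |(μ i : ℝ) - j * M * w i| ≤ j) ∧
      ∃ f : K, f ≠ 0 ∧
        (∀ Q : Place ℂ K, Divisorial N Q → ∃ s ∈ S, s ≠ 0 ∧
          (j : ℚ) * Q.ord s - ∑ i, (μ i : ℚ) * δ i Q ≤ Q.ord f) ∧
        ∀ s ∈ S, s ≠ 0 → (P.ord f : ℚ) ≤ j * P.ord s - ∑ i, (μ i : ℚ) * δ i P

end divisors

/-- **Abundance for toroidal pairs with real boundaries.** Let `K` be the function field of an abelian
cover `Y` of the product of the projective `n i`-spaces which is branched along smooth hypersurfaces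
`F i = 0` of the factors, `X` the toroidal modification of `Y` which is given by `fan`, `(X, Δ i)`,
`i < p`, toroidal pairs with the log discrepancies `1 - c i v`, which are the linear functions
`∑ k, u σ i k * v k` on the cones `σ`, and `Δ = ∑ i, w i * Δ i` with real `w i` of sum `1`. The
following are equivalent: `K_X + Δ` is nef; the inequalities; for every `ε > 0` the divisor `Δ` is a
convex combination of `ℚ`-divisors `Δ' j` at distance less than `ε` with semiample `K_X + Δ' j`, which
are effective and such that `(X, Δ' j)` is klt or log canonical if this is true for `(X, Δ)`; `K_X + Δ`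
is a convex combination of semiample `K_X + Δ' j`. -/
theorem result (r N R p : ℕ) (n d : Fin r → ℕ) (hr : 1 ≤ r) (hn : ∀ i, 1 ≤ n i)
    (hd : ∀ i, 1 ≤ d i) (hN : N = ∑ i, n i)
    (F : ∀ i, MvPolynomial (Fin (n i + 1)) ℂ) (hF : ∀ i, (F i).IsHomogeneous (d i))
    (hs : ∀ i, Smooth (F i)) (m : Fin R → ℕ) (hm : ∀ j, 1 ≤ m j) (a : Fin R → Fin r → ℕ)
    (hdiv : ∀ j i, m j ∣ a j i * d i)
    (K : Type) [Field K] [Algebra ℂ K] (x : ∀ i, Fin (n i + 1) → K) (hx0 : ∀ i, x i 0 ≠ 0)
    (hbas : IsTranscendenceBasis ℂ (affine x)) (z : Fin R → K)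
    (hz : ∀ j, z j ^ m j = ∏ i, (aeval (x i) (F i) / x i 0 ^ d i) ^ a j i)
    (hgen : IntermediateField.adjoin ℂ (Set.range (affine x) ∪ Set.range z) = ⊤)
    (fan : Finset (Finset (Fin r → ℕ))) (hfan : IsFan m a fan)
    (c : Fin p → (Fin r → ℕ) → ℚ) (u : Finset (Fin r → ℕ) → Fin p → Fin r → ℚ)
    (hlin : ∀ σ ∈ fan, ∀ i v, Admissible m a v → InCone σ v → 1 - c i v = ∑ k, u σ i k * v k)
    (w : Fin p → ℝ) (hw : ∑ i, w i = 1) :
    [Nef N (fun i P => canonicalCoefficient F d x (c i) P) w,
      Inequalities fan c w n d u,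
      ∀ ε : ℝ, 0 < ε → ∃ (J : ℕ) (l : Fin J → ℝ) (q : Fin J → Fin p → ℚ), (∀ j, 0 < l j) ∧
        ∑ j, l j = 1 ∧ (∀ i, w i = ∑ j, l j * q j i) ∧ ∀ j, ∑ i, q j i = 1 ∧
          (∀ i, |(q j i : ℝ) - w i| < ε) ∧
          (IsEffective fan c w → IsEffective fan c fun i => (q j i : ℝ)) ∧
          (IsLc fan c w → IsLc fan c fun i => (q j i : ℝ)) ∧
          (IsKlt fan c w → IsKlt fan c fun i => (q j i : ℝ)) ∧
          IsSemiample N fun P => canonicalCoefficient F d x (fun v => ∑ i, q j i * c i v) P,
      ∃ (J : ℕ) (l : Fin J → ℝ) (q : Fin J → Fin p → ℚ), (∀ j, 0 < l j) ∧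
        ∑ j, l j = 1 ∧ (∀ i, w i = ∑ j, l j * q j i) ∧ ∀ j, ∑ i, q j i = 1 ∧
          IsSemiample N fun P => canonicalCoefficient F d x (fun v => ∑ i, q j i * c i v) P].TFAE := by
  have hcan : ∀ (c' : (Fin r → ℕ) → ℚ) (P : Place ℂ K), canonicalCoefficient F d x c' P =
      Pool.Agent.U188.IndexFree.cK c' (Pool.Agent.Q57.TQ.mulQ F d x P) -
        ∑ t, ((-((n t : ℤ) + 1) : ℤ) : ℚ) * Pool.Agent.Q57.TP.minO (x t) P := by
    intro c' P
    unfold canonicalCoefficient
    change _ = (if multiplicities F d x P = 0 then 0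
      else ∑ k, (multiplicities F d x P k : ℚ) - (1 - c' (multiplicities F d x P))) -
      ∑ t, ((-((n t : ℤ) + 1) : ℤ) : ℚ) * minimalOrder (x t) P
    have h1 : ∑ t, ((-((n t : ℤ) + 1) : ℤ) : ℚ) * minimalOrder (x t) P =
        - ∑ t, ((n t : ℚ) + 1) * minimalOrder (x t) P := by
      rw [← Finset.sum_neg_distrib]
      refine Finset.sum_congr rfl fun t _ => ?_
      push_cast
      ring
    rw [h1, sub_neg_eq_add]
  have hmain := Pool.Agent.U188.RealPair.main (N := N) hr hn hN hd hF hs hx0 hbas hm hdiv hz hgen
    (S := fan) ⟨hfan.adm, hfan.full, hfan.cover⟩ (c := c) (u := u) hlin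
    (δ := fun i P => canonicalCoefficient F d x (c i) P) (fun i P => hcan (c i) P) w hw
  have hbpf : ∀ (q : Fin p → ℚ) (ρ : ℕ), Pool.Agent.Q57.FT.Bpf N (fun _ : Fin 1 => fun P =>
      Pool.Agent.U188.IndexFree.cK (fun v => ∑ i, q i * c i v) (Pool.Agent.Q57.TQ.mulQ F d x P) -
        ∑ t, ((-((n t : ℤ) + 1) : ℤ) : ℚ) * Pool.Agent.Q57.TP.minO (x t) P)
        (fun _ => (ρ : ℤ)) ↔
      ∀ P : Place ℂ K, Divisorial N P → ∃ f : K, f ≠ 0 ∧
        (∀ Q : Place ℂ K, Divisorial N Q → - (ρ * canonicalCoefficient F d x
          (fun v => ∑ i, q i * c i v) Q) ≤ Q.ord f) ∧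
        (P.ord f : ℚ) ≤ - (ρ * canonicalCoefficient F d x (fun v => ∑ i, q i * c i v) P) := by
    intro q ρ
    unfold Pool.Agent.Q57.FT.Bpf Pool.Agent.Q57.FT.ZSec
    simp only [Fin.sum_univ_one, ← hcan]
    refine forall₂_congr fun P _ => exists_congr fun f => ?_
    constructor
    · rintro ⟨h0, h1, h2⟩
      exact ⟨h0, fun Q hQ => (h1 Q hQ).resolve_left h0, h2⟩
    · rintro ⟨h0, h1, h2⟩
      exact ⟨h0, fun Q hQ => Or.inr (h1 Q hQ), h2⟩
  have hnef : Pool.Agent.Q57.FT.NefZ N (fun i P => canonicalCoefficient F d x (c i) P) w ↔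
      Nef N (fun i P => canonicalCoefficient F d x (c i) P) w := by
    unfold Pool.Agent.Q57.FT.NefZ Pool.Agent.Q57.FT.ZSecA Nef
    refine exists_congr fun S => and_congr Iff.rfl (forall₂_congr fun M _ => exists_congr fun j =>
      and_congr Iff.rfl (forall₂_congr fun P _ => exists_congr fun μ => and_congr Iff.rfl
        (exists_congr fun f => ?_)))
    constructor
    · rintro ⟨h0, h1, h2⟩
      exact ⟨h0, fun Q hQ => (h1 Q hQ).resolve_left h0, h2⟩
    · rintro ⟨h0, h1, h2⟩
      exact ⟨h0, fun Q hQ => Or.inr (h1 Q hQ), h2⟩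
  simp only [hbpf, hnef] at hmain
  have h01 := hmain.out 0 1
  have h30 := hmain.out 3 0
  have h02 := hmain.out 0 2
  tfae_have 1 ↔ 2 := h01
  tfae_have 4 → 1 := fun h => h30.1 h
  tfae_have 3 → 4 := by
    intro h
    obtain ⟨J, l, q, hl, hl1, hwq, hj⟩ := h 1 one_pos
    exact ⟨J, l, q, hl, hl1, hwq, fun j => ⟨(hj j).1, (hj j).2.2.2.2.2⟩⟩
  tfae_have 1 → 3 := by
    intro h ε hε
    have h3 := h02.1 h ε hε
    obtain ⟨J, l, q, hl, hl1, hwq, hj⟩ := h3
    have hcast : ∀ (q' : Fin p → ℚ) (s : Fin r → ℕ), ∑ i, (q' i : ℝ) * (c i s : ℝ) =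
        ((∑ i, q' i * c i s : ℚ) : ℝ) := fun q' s => by push_cast; rfl
    refine ⟨J, l, q, hl, hl1, hwq, fun j => ⟨(hj j).1, (hj j).2.1, ?_, ?_, ?_, ?_⟩⟩
    · intro he τ hτ s hs'
      rw [hcast]
      exact_mod_cast ((hj j).2.2.1 τ hτ s hs').1 (he τ hτ s hs')
    · intro he τ hτ s hs'
      rw [hcast]
      exact_mod_cast ((hj j).2.2.1 τ hτ s hs').2.1 (he τ hτ s hs')
    · intro he τ hτ s hs'
      rw [hcast]
      exact_mod_cast ((hj j).2.2.1 τ hτ s hs').2.2 (he τ hτ s hs')
    · -- a common denominator
      obtain ⟨ρ, hρ, hden⟩ := Pool.Agent.U188.IndexFree.exists_den fan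
        fun σ k => ∑ i, q j i * u σ i k
      refine ⟨ρ, hρ, (hj j).2.2.2 ρ hρ fun v hv => ?_⟩
      obtain ⟨σ, hσ, hvσ⟩ := hfan.cover v hv
      choose z hz using hden σ hσ
      refine ⟨ρ - ∑ k, z k * v k, ?_⟩
      have h1 : 1 - ∑ i, q j i * c i v = ∑ k, (∑ i, q j i * u σ i k) * v k := by
        calc 1 - ∑ i, q j i * c i v = ∑ i, q j i * (1 - c i v) := by
              simp only [mul_sub, mul_one, Finset.sum_sub_distrib, (hj j).1]
          _ = ∑ i, ∑ k, q j i * (u σ i k * v k) := by
              refine Finset.sum_congr rfl fun i _ => ?_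
              rw [hlin σ hσ i v hv hvσ, Finset.mul_sum]
          _ = _ := by
              rw [Finset.sum_comm]
              refine Finset.sum_congr rfl fun k _ => ?_
              rw [Finset.sum_mul]
              exact Finset.sum_congr rfl fun i _ => by ring
      have h2 : (ρ : ℚ) * (1 - ∑ i, q j i * c i v) = ∑ k, (z k : ℚ) * v k := by
        rw [h1, Finset.mul_sum]
        refine Finset.sum_congr rfl fun k _ => ?_
        rw [← hz k]
        ring
      push_cast
      linarith
  tfae_finish

end Pool.Agent.Results.MP_9a2ae6_ag.RealToroidalBoundaries
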