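import Pool.Agent.U976.TBd.RD3

/-!
# Abundance for pairs with real coefficients on toric bundles over quotients of complex tori

Let `X = V / Γ` be the quotient of a complex torus of any dimension by any finite group; the torus need
not be algebraic, and the group may contain reflections, so that `K_X` may be negative (for instance `X`
may be a projective space or any other rational quotient of an abelian variety, or a Kummer space
without curves). Let `Y → X` be a toric bundle: all fibres are the same smooth complete toric variety,
of any dimension, and the twists `c i` are arbitrary line bundles on `X`; if the fan is projective, `Y`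
is a compact Kähler space. Let `D_1, ..., D_r` be any effective Cartier divisors on `Y`, given by
sections `F_j` of line bundles `O_Y(d_j; M_j)`, and let `B = ∑ b_j D_j`, with real coefficients
`b_j ≥ 0`, such that the pair `(Y, B)` is log canonical, for instance klt, or only: all torus invariant
prime divisors over the general fibre of `Y → X` have discrepancy at least `-1`.

The theorem: `K_Y + B` is nef if and only if it is semiample as an `ℝ`-divisor: it is a sum of positive
real multiples of semiample divisors, more precisely `K_Y + B = ∑ t_k (m_k K_Y + ∑ w_{k j} D_j)` with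
`t_k > 0` real, integers `m_k ≥ 1` and `w_{k j} ≥ 0`, `∑ t_k m_k = 1`, and all the divisors in brackets
semiample. It is enough that `K_Y + B` is nef on the fibres and on the invariant sections of `Y → X`,
and if `V → X` is unramified in codimension one (`K_X` is torsion, for instance `X` is a complex torus),
it is enough that `K_Y + B` is nef on the fibres.

The proof. For each cone `σ` of the fan let `β_σ` be the real exponent with `β_i = 0` for `i ∈ σ` in the
class of `K_Y + B`. By the condition on the discrepancies and a separation argument with real
coefficients `β_σ + 1` is in the sum of the Newton polytopes of the `F_j`, multiplied by `b_j`; the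
corresponding convex combinations `λ_σ` are further real variables. The forms on `V` of the adjoint
exponents are nonnegative in the directions parallel to the mirrors, so the forms are nonnegative if
and only if finitely many linear inequalities with integral coefficients hold, one for each reflection
of `Γ`. So the real vector with the coordinates `1`, `b`, `λ_σ` and the characters of the `β_σ` is in a
rational polyhedral cone (with equations for `β_i = 0`, `i ∈ σ`), and hence a sum of positive real
multiples of integral vectors in this cone for which the first coordinate is positive. Each of them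
gives weights `w_j`, an integer `m`, and for each `σ` the product of the corresponding powers of the
coefficients of the `F_j`, a log pluricanonical divisor on `X`. By abundance for pairs on torus
quotients it gives sections of multiples of `m K_Y + ∑ w_j D_j` without zeros at the points of `σ`.

`IsTorusQuotient` and `LineBundle` are defined in `Pool.Agent.W594.SYZ.Defs2`; `IsChernForm` in
`Pool.Agent.W594.SYZ.TQDefs`; `IsRamification` in `Pool.Agent.TH735.AQ.MirDefs`; `IsSmoothFan`,
`LinEquiv` and `IsSection` in `Pool.Agent.Q47.TB.Defs`; `IsCanonicalBundle`, `RealLC`, `RealNef`,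
`PieceSemiample` and `RealSemiample` in `Pool.Agent.U976.TBd.RDDefs`.
-/

set_option autoImplicit false

namespace Pool.Agent.Results.MP_9a2ae6_ag.ToricBundlesReal

open Pool.Agent.W594.SYZ2 Pool.Agent.TH735.AQ Q47.TB Pool.Agent.U976.TBd MvPolynomial

/-- Let `Y` be the toric bundle with the fan `u`, `S` and the twists `c i` over the torus quotient
`X = V / Γ`, with the canonical bundle `O_Y(-1, ..., -1; K)`, let `D_j` be the divisor of the section
`F j` of `O_Y(d j; M j)`, and let `b j ≥ 0` be real numbers such that the torus invariant prime divisors
over the general fibre have discrepancy at least `-1` for the pair `(Y, ∑ b_j D_j)`. Let `HK`, `HM j` and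
`Hc i` be the Chern forms of `K`, `M j` and `c i`.

(1) `K_Y + ∑ b_j D_j` is nef if and only if it is semiample.
(2) If `V → X` is unramified in codimension one, it is semiample if (and only if) it is nef on the
fibres: for each cone `σ` its class on the toric variety contains an effective divisor `∑ β_i D_i` with
`β_i = 0` for `i ∈ σ`. -/
theorem result {V : Type*} [NormedAddCommGroup V] [NormedSpace ℂ V] [FiniteDimensional ℂ V]
    (Γ : Subgroup (V ≃ᵃ[ℂ] V)) (hΓ : IsTorusQuotient Γ) (ρ : V → ℂ) (hρ : IsRamification Γ ρ)
    {ι : Type*} [Fintype ι] {n r : ℕ} (u : ι → Fin n → ℤ) (S : Set (Set ι)) (hS : IsSmoothFan u S)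
    (c : ι → LineBundle Γ) (Hc : ι → V → V → ℂ) (hc : ∀ i, IsChernForm (c i) (Hc i))
    (K : LineBundle Γ) (hK : IsCanonicalBundle c ρ K) (HK : V → V → ℂ) (hHK : IsChernForm K HK)
    (d : Fin r → ι → ℤ) (M : Fin r → LineBundle Γ) (HM : Fin r → V → V → ℂ)
    (hM : ∀ j, IsChernForm (M j) (HM j))
    (F : Fin r → V → MvPolynomial ι ℂ) (hF : ∀ j, IsSection u c (d j) (M j).e (F j))
    (b : Fin r → ℝ) (hb : ∀ j, 0 ≤ b j) (hlc : RealLC S F b) :
    (RealNef u S Hc HK d HM b ↔ RealSemiample u S c K d M b) ∧
    ((∀ v, ρ v ≠ 0) → (RealSemiample u S c K d M b ↔
      ∀ σ ∈ S, ∃ (β : ι → ℝ) (q : Fin n → ℝ), (∀ i, 0 ≤ β i) ∧ (∀ i ∈ σ, β i = 0) ∧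
        ∀ i, β i = ∑ j, b j * d j i - 1 + ∑ l, q l * u i l)) := by
  refine ⟨⟨real_semiample_of_nef hΓ hρ hS hc hK hHK hM hF hb hlc,
    real_nef_of_semiample hΓ hc hHK hM⟩, fun h0 => ⟨fun h σ hσ => ?_,
    real_semiample_of_unram hΓ hρ h0 hS hc hK hHK hM hF hb hlc⟩⟩
  obtain ⟨β, q, h1, h2, h3, -⟩ := real_nef_of_semiample hΓ hc hHK hM h σ hσ
  exact ⟨β, q, h1, h2, h3⟩

end Pool.Agent.Results.MP_9a2ae6_ag.ToricBundlesReal
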